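import Pool.Agent.H593R3.UPC.AM

/-!
# The OR-distillation conjecture holds unless `coNP ⊆ AM`

If some `NP`-hard language has an OR-compression into some set (for example if some
`NP`-complete language has an OR-distillation) then `coNP ⊆ AM`.

Proof. By the theorem on unique certificates (`Pool.Agent.H593R3.UPC.main`) an OR-compression puts
the inputs without certificates into a language in `NP` that contains no input with a unique
certificate. The verifier sends random rows, and the prover has to show that the certificates that
are orthogonal to the first `k` rows do not exist, for every `k` and for four independent trials;
it can do this for all rows if there are no certificates. If there are certificates, then with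
probability at least `1/2` exactly one of them is orthogonal to the first `k` rows for some `k` in
some trial (Valiant and Vazirani), and the prover cannot answer.
-/

namespace Pool.Agent.Results.MP_609cce_lc.ArthurMerlin

open Pool.Agent.NPC Pool.Agent.H593R3.UPC

theorem result : (∃ L, InNP L ∧ ¬ InAM Lᶜ) →
    ∀ R S : Set (List Bool), NPHard R → ¬ ORComp R S := by
  rintro ⟨L, hL, hL'⟩ R S hR hS
  exact hL' (conp_am hR hS hL)

end Pool.Agent.Results.MP_609cce_lc.ArthurMerlin
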