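import Pool.Agent.H593R3.DST.Gauge

/-!
# How many oracles admit OR-distillations?

For every gauge `f`, the set of the oracles relative to which some `NP`-complete language has an
OR-distillation is a null set for `f` if and only if for every `ε > 0` there are infinitely many
`N` with `f N ≤ 2 ^ ((log N) ^ ε)`. The same holds for the set of the oracles relative to which
some `NP`-hard language has an OR-compression into some set, and for all sets of oracles between
this set and the set of the oracles `A` such that all languages in `PSPACE^A` are reducible to `A`.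

The proof combines the theorem of Fortnow and Santhanam, relative to an oracle (if an `NP`-hard
language has an OR-compression into some set then `NP ⊆ coNP/poly`: few outputs of the compression
cover, by the tuples of no-instances that produce them, all no-instances of a given length), with
bounds for the sets of oracles with `NP ⊆ coNP/poly` and with `P = PSPACE` (helper620 and others).
-/

namespace Pool.Agent.Results.MP_609cce_lc.GaugeThreshold

open Pool.Agent.NPC Pool.Agent.H593R3.DST
open Pool.Agent.H620R2.Gauge (Oracle IsPSPACE Null)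
open Pool.Agent.H877R3.Join (IsNP)

theorem result (f : ℕ → ℝ) :
    (∀ O : Set Oracle, (∀ A : Oracle, (∀ L, IsPSPACE A L → Reduces L {x | A x = true}) → A ∈ O) →
      (∀ A ∈ O, ∃ R S, NPHardRel A R ∧ ORCompression A R S) →
      (Null f O ↔
        ∀ ε : ℝ, 0 < ε → ∃ᶠ N : ℕ in Filter.atTop, f N ≤ 2 ^ (Real.logb 2 N) ^ ε)) ∧
    (Null f {A : Oracle | ∃ R S, NPHardRel A R ∧ ORCompression A R S} ↔
      ∀ ε : ℝ, 0 < ε → ∃ᶠ N : ℕ in Filter.atTop, f N ≤ 2 ^ (Real.logb 2 N) ^ ε) ∧
    (Null f {A : Oracle | ∃ R, IsNP A R ∧ NPHardRel A R ∧ ORCompression A R R} ↔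
      ∀ ε : ℝ, 0 < ε → ∃ᶠ N : ℕ in Filter.atTop, f N ≤ 2 ^ (Real.logb 2 N) ^ ε) :=
  gauge_main f

end Pool.Agent.Results.MP_609cce_lc.GaugeThreshold
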