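import Pool.Agent.H593R3.DST.A5

/-!
# OR-distillation relative to oracles

If some `NP`-complete language has an OR-distillation then `NP ⊆ coNP/poly` (Fortnow and
Santhanam), and if `P = NP` then every `NP`-complete language has one. Between `P ≠ NP` and
`NP ⊆ coNP/poly` nothing is known. We show that, even if `P ≠ NP = coNP`, both answers are possible
relative to oracles:

* relative to some oracle `P ≠ UP ∩ coUP`, `NP = coNP`, and all `NP`-complete languages have
  OR-distillations and AND-distillations, and even compressions of arbitrary polynomial-time
  computable combinations of arbitrarily many questions to a language in `NP`;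
* relative to some oracle `P ≠ NP = coNP`, and no `NP`-hard language has an OR-compression or an
  AND-compression into any set.

So relativizing arguments can neither prove nor refute the conjecture under the hypothesis
`P ≠ NP = coNP`, and the theorem of Fortnow and Santhanam has no relativizing converse.

Proof. For the first oracle, the answers to the questions whether the combination of the answers for
a sequence `y` of instances is true are found in the oracle, written as short codes of questions to
an `NP`-complete language `Z`. Usually the code reveals the answer. But if such a question is asked
by the algorithm against which we diagonalize, while the answer is not determined yet, then the key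
(the question, with its arbitrarily long sequence `y`) gets a new short code, and the witnesses
that show that this code is in `Z` are put at places which the algorithm does not look at. So
polynomially many new codes suffice, though there are many more keys than codes.
For the second oracle, `NP = coNP` is achieved by putting, for all `x` outside of the languages in
`NP`, a witness at one of very many places; the compression algorithm sees, on more than
`2 ^ (q n + 1)` lists of `q n + 2` strings, only few places, two of the lists have the same output,
and we put one string of the second, but not of the first list into the test language.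
-/

namespace Pool.Agent.Results.MP_609cce_lc.RelativizedDistillation

open Pool.Agent.NPC Pool.Agent.H593R3.DST
open Pool.Agent.H620R2.Gauge (Oracle IsP)
open Pool.Agent.H877R3.Join (IsNP IsUP)

theorem result :
    (∃ O : Oracle, (∃ L, IsUP O L ∧ IsUP O Lᶜ ∧ ¬ IsP O L) ∧ (∀ L, IsNP O L → IsNP O Lᶜ) ∧
      (∃ R, IsNP O R ∧ NPHardRel O R) ∧
      (∀ R, IsNP O R → NPHardRel O R → ORCompression O R R ∧ ANDCompression O R R) ∧
      ∀ L R, IsNP O L → NPHardRel O R → ∀ h, PolyTime h → CombCompression O h L R) ∧
    ∃ O : Oracle, (∃ L, IsNP O L ∧ ¬ IsP O L) ∧ (∀ L, IsNP O L → IsNP O Lᶜ) ∧
      (∃ R, IsNP O R ∧ NPHardRel O R) ∧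
      ∀ R S, NPHardRel O R → ¬ ORCompression O R S ∧ ¬ ANDCompression O R S := by
  refine ⟨?_, worldB⟩
  obtain ⟨O, h1, h2, h3, h4⟩ := worldA
  exact ⟨O, h1, h2, h3, fun R hR hR' => ⟨(h4 R R hR hR' hOR polyTime_hOR).or,
    (h4 R R hR hR' hAND polyTime_hAND).and⟩, h4⟩

end Pool.Agent.Results.MP_609cce_lc.RelativizedDistillation
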