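import Pool.Agent.H593R3.UPC.Main

/-!
# The OR-distillation conjecture holds unless `UP ⊆ coNP`

If some `NP`-hard language has an OR-compression into some set (for example if some
`NP`-complete language has an OR-distillation) then `UP ⊆ coNP`. More generally, for every
polynomial-time verifier `V` there is a language in `NP` which contains all inputs without
certificates and none of the inputs with exactly one certificate.

Proof. To show that an input `x` has no certificate, if we know that it has at most one, go through
the binary tree of the prefixes of certificates, level by level, and keep a list of live nodes, such
that a certificate could only extend live nodes. Suppose that the OR-compression maps the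
question whether some certificate extends a node in `H`, and the same question for `H'`, where
`H` and `H'` are two nonempty sets of nodes of the same level, to the same string. Then, since
there is at most one certificate, it extends no node that belongs to one of the two sets only. If
there are more than `q + 2` live nodes, where `q` is the bound for the length of the outputs, then
there are more nonempty sets of live nodes than outputs, and so such a pair can be guessed and a
node can be removed. So there are always at most `q + 2` live nodes, and the whole argument has
polynomial length and can be checked in polynomial time.
-/

namespace Pool.Agent.Results.MP_609cce_lc.UniqueWitnesses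

open Pool.Agent.NPC Pool.Agent.H593R3.UPC

theorem result :
    ((∃ L, InUP L ∧ ¬ InNP Lᶜ) → ∀ R S : Set (List Bool), NPHard R → ¬ ORComp R S) ∧
    ∀ R S : Set (List Bool), NPHard R → ORComp R S →
      ∀ (V : List Bool → List Bool) (p : Polynomial ℕ), PolyTime V →
      ∃ L : Set (List Bool), InNP L ∧ ∀ x : List Bool,
        ((¬ ∃ w : List Bool, w.length ≤ p.eval x.length ∧ V (pairBits x w) = [true]) → x ∈ L) ∧
        ((∃! w : List Bool, w.length ≤ p.eval x.length ∧ V (pairBits x w) = [true]) → x ∉ L) := by
  refine ⟨?_, fun R S hR hS V p hV => main hR hS V p hV⟩
  rintro ⟨L, hL, hL'⟩ R S hR hS
  exact hL' (up_in_conp hR hS hL)

end Pool.Agent.Results.MP_609cce_lc.UniqueWitnesses
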